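import Pool.Agent.Helper28_TP.StS

/-!
# Module PSH: Harris inequality for random subsets
-/

set_option autoImplicit false

namespace Pool.Agent.TP.H11

open Pool.Agent.TP

variable {α : Type} [DecidableEq α]

theorem ex_harris (V : Finset α) (q : α → ℝ) (hq : U01 V q) (f g : Finset α → ℝ)
    (hf : ∀ A B, A ⊆ B → f A ≤ f B) (hg : ∀ A B, A ⊆ B → g A ≤ g B) :
    EX V q f * EX V q g ≤ EX V q (fun A => f A * g A) := by
  induction V using Finset.induction_on generalizing f g with
  | empty => simp [EX_empty]
  | insert a V ha ih =>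
    have hqV : U01 V q := fun b hb => hq b (Finset.mem_insert_of_mem hb)
    obtain ⟨h0, h1⟩ := hq a (Finset.mem_insert_self a V)
    rw [EX_insert ha, EX_insert ha, EX_insert ha]
    have e1 := ih hqV (fun A => f (insert a A)) (fun A => g (insert a A))
      (fun A B h => hf _ _ (Finset.insert_subset_insert a h))
      (fun A B h => hg _ _ (Finset.insert_subset_insert a h))
    have e0 := ih hqV f g hf hg
    have m1 : EX V q f ≤ EX V q (fun A => f (insert a A)) :=
      EX_mono hqV fun A _ => hf _ _ (Finset.subset_insert a A)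
    have m2 : EX V q g ≤ EX V q (fun A => g (insert a A)) :=
      EX_mono hqV fun A _ => hg _ _ (Finset.subset_insert a A)
    have h2 : 0 ≤ 1 - q a := by linarith
    have p1 := mul_le_mul_of_nonneg_left e1 h0
    have p0 := mul_le_mul_of_nonneg_left e0 h2
    have h3 : 0 ≤ q a * (1 - q a) *
        ((EX V q (fun A => f (insert a A)) - EX V q f) *
          (EX V q (fun A => g (insert a A)) - EX V q g)) :=
      mul_nonneg (mul_nonneg h0 h2) (mul_nonneg (by linarith) (by linarith))
    refine le_trans ?_ (add_le_add p1 p0)
    nlinarith [h3]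

theorem ex_harris' (V : Finset α) (q : α → ℝ) (hq : U01 V q) (f g : Finset α → ℝ)
    (hf : ∀ A B, A ⊆ B → f B ≤ f A) (hg : ∀ A B, A ⊆ B → g B ≤ g A) :
    EX V q f * EX V q g ≤ EX V q (fun A => f A * g A) := by
  have h := ex_harris V q hq (fun A => (-1) * f A) (fun A => (-1) * g A)
    (fun A B h => by have := hf A B h; linarith) (fun A B h => by have := hg A B h; linarith)
  rw [EX_mul, EX_mul] at h
  have e : EX V q (fun A => (-1) * f A * ((-1) * g A)) = EX V q (fun A => f A * g A) :=
    EX_congr (fun _ _ => rfl) fun A _ => by ring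
  rw [e] at h
  linarith

theorem ps_harris (V : Finset α) (q : α → ℝ) (hq : U01 V q) (E F : Finset α → Prop)
    (hE : ∀ A B, A ⊆ B → E A → E B) (hF : ∀ A B, A ⊆ B → F A → F B) :
    PS V q E * PS V q F ≤ PS V q (fun A => E A ∧ F A) := by
  classical
  rw [PS_def, PS_def, PS_def]
  refine le_trans (ex_harris V q hq _ _ ?_ ?_) (le_of_eq ?_)
  · intro A B h
    by_cases h1 : E A
    · simp [h1, hE A B h h1]
    · by_cases h2 : E B <;> simp [h1, h2]
  · intro A B h
    by_cases h1 : F A
    · simp [h1, hF A B h h1]
    · by_cases h2 : F B <;> simp [h1, h2]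
  · refine EX_congr (fun _ _ => rfl) fun A _ => ?_
    by_cases h1 : E A <;> by_cases h2 : F A <;> simp [h1, h2]

theorem ps_harris' (V : Finset α) (q : α → ℝ) (hq : U01 V q) (E F : Finset α → Prop)
    (hE : ∀ A B, A ⊆ B → E B → E A) (hF : ∀ A B, A ⊆ B → F B → F A) :
    PS V q E * PS V q F ≤ PS V q (fun A => E A ∧ F A) := by
  classical
  rw [PS_def, PS_def, PS_def]
  refine le_trans (ex_harris' V q hq _ _ ?_ ?_) (le_of_eq ?_)
  · intro A B h
    by_cases h1 : E B
    · simp [h1, hE A B h h1]
    · by_cases h2 : E A <;> simp [h1, h2]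
  · intro A B h
    by_cases h1 : F B
    · simp [h1, hF A B h h1]
    · by_cases h2 : F A <;> simp [h1, h2]
  · refine EX_congr (fun _ _ => rfl) fun A _ => ?_
    by_cases h1 : E A <;> by_cases h2 : F A <;> simp [h1, h2]

/-- Harris inequality for finitely many monotone events. -/
theorem psh : PshStmt := by
  intro α _ V q hq ι S E
  classical
  constructor
  · induction S using Finset.induction_on with
    | empty =>
      intro _
      simpa using (PS_true V q).symm.le
    | insert i S hi ih =>
      intro hE
      rw [Finset.prod_insert hi]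
      have h1 := ih fun j hj => hE j (Finset.mem_insert_of_mem hj)
      have h2 := ps_harris V q hq (E i) (fun A => ∀ j ∈ S, E j A)
        (hE i (Finset.mem_insert_self i S))
        (fun A B h hA j hj => hE j (Finset.mem_insert_of_mem hj) A B h (hA j hj))
      have h3 := mul_le_mul_of_nonneg_left h1 (PS_nonneg hq (E i))
      refine le_trans h3 (le_trans h2 (le_of_eq ?_))
      exact PS_congr (fun _ _ => rfl) fun A _ => by rw [Finset.forall_mem_insert]
  · induction S using Finset.induction_on with
    | empty =>
      intro _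
      simpa using (PS_true V q).symm.le
    | insert i S hi ih =>
      intro hE
      rw [Finset.prod_insert hi]
      have h1 := ih fun j hj => hE j (Finset.mem_insert_of_mem hj)
      have h2 := ps_harris' V q hq (E i) (fun A => ∀ j ∈ S, E j A)
        (hE i (Finset.mem_insert_self i S))
        (fun A B h hA j hj => hE j (Finset.mem_insert_of_mem hj) A B h (hA j hj))
      have h3 := mul_le_mul_of_nonneg_left h1 (PS_nonneg hq (E i))
      refine le_trans h3 (le_trans h2 (le_of_eq ?_))
      exact PS_congr (fun _ _ => rfl) fun A _ => by rw [Finset.forall_mem_insert]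

end Pool.Agent.TP.H11
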